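import Pool.Agent.H50.IC.Str
import Pool.Graph.R_pool_sql_team_seeded_63374d34.N914.IX.Gaps

/-! Patterns of consecutive primes at indices in every residue class, with differences in given sets. -/

set_option autoImplicit false
set_option maxHeartbeats 4000000

namespace Pool.Agent.H50.IC

open Finset Filter Topology
open Pool.Agent.N914.CP (patN Str Good Hyp cliques cl dist_circle)
open Pool.Agent.N914.IX (GoodI index cnt Exact)
open Pool.Agent.N914.WU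

/-- the property of the large sets of shifts which is used -/
def Rich (L R : ℕ) (𝒢 : (Fin R → ℕ) → (Fin R → ℕ) → (Fin R → ℝ) → Finset ℕ → Prop) : Prop :=
  ∃ K : ℕ, ∀ V : Finset ℕ, K ≤ V.card → ∀ Q : ℕ,
    ∃ x₀ : ℝ, ∀ (q a : Fin R → ℕ) (x : Fin R → ℝ),
    (∀ ρ, 1 ≤ q ρ ∧ q ρ ≤ Q ∧ (∀ v ∈ V, (a ρ + v).Coprime (q ρ)) ∧ x₀ ≤ x ρ) →
    ∃ W ⊆ V, W.card = L ∧ 𝒢 q a x W

open Classical in
theorem core {L R : ℕ} {𝒢 : (Fin R → ℕ) → (Fin R → ℕ) → (Fin R → ℝ) → Finset ℕ → Prop}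
    (hstr : Rich L R 𝒢) (D : Set ℕ) (hD : FMin D) (δ : ℝ)
    (hδ : 0 < δ) : ∃ c : ℝ, 0 < c ∧ ∃ N₀ : ℕ, ∀ N : ℕ, N₀ ≤ N → ∀ Q : ℕ, ∃ x₀ : ℝ,
    ∀ (q a : Fin R → ℕ) (x : Fin R → ℝ) (F : Finset ℕ), Hyp R N Q δ x₀ q a x F →
    c * (N : ℝ) ^ L ≤ (((powersetCard L F).filter (fun W =>
      (∀ u ∈ W, ∀ v ∈ W, u < v → v - u ∈ D) ∧ 𝒢 q a x W)).card : ℝ) := by
  obtain ⟨K, hK⟩ := hstr
  obtain ⟨c, hc, N₀, h⟩ := cliques D hD (max K L) δ hδ
  choose! x0 hx0 using hK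
  refine ⟨c, hc, max 1 N₀, fun N hN Q => ⟨∑ V ∈ (range N).powerset, |x0 V Q|,
    fun q a x F hyp => ?_⟩⟩
  obtain ⟨h1, hF, hFc, hcop⟩ := hyp
  have hN1 : 1 ≤ N := (le_max_left _ _).trans hN
  have hN0 : (0 : ℝ) < N := by exact_mod_cast hN1
  have h2 := h N ((le_max_right _ _).trans hN) F hF hFc
  have h3 : ∀ S : Finset ℕ, S ∈ cl D (max K L) F → ∃ W : Finset ℕ, W ⊆ S ∧ W.card = L ∧
      𝒢 q a x W := by
    intro S hS
    unfold cl at hS
    rw [mem_filter, mem_powersetCard] at hS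
    obtain ⟨⟨hS1, hS2⟩, -⟩ := hS
    refine hx0 S (by rw [hS2]; exact le_max_left _ _) Q q a x fun ρ => ?_
    obtain ⟨e1, e2, e3⟩ := h1 ρ
    refine ⟨e1, e2, fun v hv => hcop ρ v (hS1 hv), le_trans ?_ e3⟩
    refine (le_abs_self _).trans ?_
    exact single_le_sum (f := fun V => |x0 V Q|) (fun V _ => abs_nonneg _)
      (mem_powerset.2 (hS1.trans hF))
  choose! Φ hΦ using h3
  set 𝒲 := (powersetCard L F).filter (fun W =>
      (∀ u ∈ W, ∀ v ∈ W, u < v → v - u ∈ D) ∧ 𝒢 q a x W) with h𝒲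
  have h4 : (cl D (max K L) F).card ≤ N ^ (max K L - L) * 𝒲.card := by
    refine card_le_mul_card_image_of_maps_to (f := Φ) ?_ _ ?_
    · intro S hS
      obtain ⟨e1, e2, e3⟩ := hΦ S hS
      unfold cl at hS
      rw [mem_filter, mem_powersetCard] at hS
      rw [h𝒲, mem_filter, mem_powersetCard]
      exact ⟨⟨e1.trans hS.1.1, e2⟩, fun u hu v hv huv => hS.2 u (e1 hu) v (e1 hv) huv, e3⟩
    · intro W _
      have h5 : ((cl D (max K L) F).filter (fun S => Φ S = W)).card ≤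
          (powersetCard (max K L - L) (range N)).card := by
        refine card_le_card_of_injOn (fun S => S \ W) ?_ ?_
        · intro S hS
          rw [mem_coe, mem_filter] at hS
          obtain ⟨hS1, hS2⟩ := hS
          obtain ⟨e1, e2, -⟩ := hΦ S hS1
          rw [hS2] at e1 e2
          unfold cl at hS1
          rw [mem_filter, mem_powersetCard] at hS1
          rw [mem_coe, mem_powersetCard]
          refine ⟨sdiff_subset.trans (hS1.1.1.trans hF), ?_⟩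
          rw [card_sdiff_of_subset e1, hS1.1.2, e2]
        · intro S hS S' hS' he
          rw [mem_coe, mem_filter] at hS hS'
          have e1 := (hΦ S hS.1).1
          have e2 := (hΦ S' hS'.1).1
          rw [hS.2] at e1
          rw [hS'.2] at e2
          simp only at he
          rw [← sdiff_union_of_subset e1, ← sdiff_union_of_subset e2, he]
      rw [card_powersetCard, card_range] at h5
      exact h5.trans (Nat.choose_le_pow N _)
  have h5 : ((cl D (max K L) F).card : ℝ) ≤ (N : ℝ) ^ (max K L - L) * 𝒲.card := by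
    exact_mod_cast h4
  have h6 : (N : ℝ) ^ (max K L) = (N : ℝ) ^ (max K L - L) * (N : ℝ) ^ L := by
    rw [← pow_add, Nat.sub_add_cancel (le_max_right _ _)]
  have h7 : (N : ℝ) ^ (max K L - L) * (c * (N : ℝ) ^ L) ≤ (N : ℝ) ^ (max K L - L) * 𝒲.card := by
    refine le_trans (le_of_eq ?_) (h2.trans h5)
    rw [h6]
    ring
  exact le_of_mul_le_mul_left h7 (by positivity)

open Classical in
theorem poly {L R : ℕ} {𝒢 : (Fin R → ℕ) → (Fin R → ℕ) → (Fin R → ℝ) → Finset ℕ → Prop}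
    (hstr : Rich L R 𝒢) (r : ℕ) (P : Fin r → Polynomial ℝ)
    (hP : ∀ h : Fin r → ℤ, h ≠ 0 → ∃ i, 2 ≤ i ∧ Irrational ((∑ l, (h l : ℝ) • P l).coeff i))
    (δ : ℝ) (hδ : 0 < δ) (ε : ℝ) (hε : 0 < ε) :
    ∃ c : ℝ, 0 < c ∧ ∃ N₀ : ℕ, ∀ N : ℕ, N₀ ≤ N → ∀ Q : ℕ, ∃ x₀ : ℝ,
    ∀ (q a : Fin R → ℕ) (x : Fin R → ℝ) (F : Finset ℕ), Hyp R N Q δ x₀ q a x F →
    ∀ θ : Fin r → ℝ,
    c * (N : ℝ) ^ L ≤ (((powersetCard L F).filter (fun W =>
      (∀ u : ℕ, u ∈ W → ∀ v : ℕ, v ∈ W → u < v → ∀ l, ∃ m : ℤ,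
        |(P l).eval ((v : ℝ) - u) - θ l - m| < ε) ∧
      𝒢 q a x W)).card : ℝ) := by
  obtain ⟨T, -, hTf, hT⟩ := finite_cover_balls_of_compact
    (isCompact_univ (X := UnitAddTorus (Fin r))) (half_pos hε)
  have h1 := fun z : UnitAddTorus (Fin r) => core hstr _
    (fmin_poly P hP z (ε / 2) (half_pos hε)) δ hδ
  choose c hc N₀ hN₀ using h1
  obtain ⟨c', hc', hcle⟩ : ∃ c' : ℝ, 0 < c' ∧ ∀ z ∈ T, c' ≤ c z := by
    by_cases hne : T.Nonempty
    · obtain ⟨z₀, hz₀, hmin⟩ := hTf.exists_minimalFor c T hne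
      refine ⟨c z₀, hc z₀, fun z hz => ?_⟩
      rcases le_total (c z₀) (c z) with h | h
      · exact h
      · exact hmin hz h
    · rw [Set.not_nonempty_iff_eq_empty] at hne
      subst hne
      exact ⟨1, one_pos, fun z hz => absurd hz (Set.notMem_empty _)⟩
  choose! x₀ hx₀ using hN₀
  refine ⟨c', hc', ∑ z ∈ hTf.toFinset, N₀ z, fun N hN Q => ⟨∑ z ∈ hTf.toFinset, |x₀ z N Q|,
    fun q a x F hyp θ => ?_⟩⟩
  obtain ⟨z, hz, hzθ⟩ : ∃ z ∈ T, dist (fun l => ((θ l : ℝ) : AddCircle (1 : ℝ))) z < ε / 2 := by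
    have h2 := hT (Set.mem_univ (fun l => ((θ l : ℝ) : AddCircle (1 : ℝ))))
    simp only [Set.mem_iUnion, Metric.mem_ball] at h2
    obtain ⟨z, hz, h3⟩ := h2
    exact ⟨z, hz, h3⟩
  have hzT : z ∈ hTf.toFinset := hTf.mem_toFinset.2 hz
  have hNz : N₀ z ≤ N := (single_le_sum (f := N₀) (fun _ _ => Nat.zero_le _) hzT).trans hN
  have h2 := hx₀ z N hNz Q q a x F ⟨fun ρ => by
    obtain ⟨e1, e2, e3⟩ := hyp.1 ρ
    refine ⟨e1, e2, ?_⟩
    refine (le_abs_self _).trans (le_trans ?_ e3)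
    exact single_le_sum (f := fun z => |x₀ z N Q|) (fun _ _ => abs_nonneg _) hzT, hyp.2⟩
  refine (mul_le_mul_of_nonneg_right (hcle z hz) (by positivity)).trans (h2.trans ?_)
  rw [Nat.cast_le]
  refine card_le_card fun W hW => ?_
  rw [mem_filter] at hW ⊢
  refine ⟨hW.1, fun u hu v hv huv l => ?_, hW.2.2⟩
  have h6 := hW.2.1 u hu v hv huv
  rw [Set.mem_ofPred_eq] at h6
  have h7 : dist (pt P (v - u)) (fun l => ((θ l : ℝ) : AddCircle (1 : ℝ))) < ε := by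
    refine lt_of_le_of_lt (dist_triangle _ z _) ?_
    rw [dist_comm z]
    linarith
  have h8 := (dist_pi_lt_iff hε).1 h7 l
  obtain ⟨m, hm⟩ := dist_circle _ _ _ h8
  rw [Nat.cast_sub huv.le] at hm
  exact ⟨m, hm⟩

/-- the patterns at indices in all the residue classes modulo `m` -/
theorem rich (k m : ℕ) (hm : 1 ≤ m) : ∃ B : ℕ, ∀ L R M : ℕ, Rich L R (GoodI k B m R M) := by
  obtain ⟨B, hB⟩ := str (k + m - 1)
  exact ⟨B + 1, fun L R M => index k m B hm hB L R M⟩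

end Pool.Agent.H50.IC
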