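import Pool.Graph.R_seed8.Y827.RO.LamE
import Pool.Graph.R_pool_sql_team_seeded_63374d34.N914.CP.Main

/-! Exact patterns of consecutive primes inside every set of a fixed number of shifts in one residue
class, with a number of occurrences at least `x / (log x) ^ B` for all large `x`, with `B` depending only
on the number of primes. -/

set_option autoImplicit false
set_option maxHeartbeats 4000000

namespace Pool.Agent.H50.IC

open Finset Filter Topology
open Pool.Agent.Y827.RO Pool.Agent.Y827.GS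
open Pool.Agent.N914.CP (patN Str Good)

/-- distinct primes larger than a bound, indexed by a finite type -/
theorem many_primes {ι : Type} [Fintype ι] (B : ℕ) : ∃ p : ι → ℕ, (∀ t, (p t).Prime) ∧
    (∀ t, B < p t) ∧ Function.Injective p := by
  classical
  set e₀ := Fintype.equivFin ι with he₀
  refine ⟨fun g => Nat.nth Nat.Prime (B + (e₀ g : ℕ)), fun g => Nat.prime_nth_prime _, fun g => ?_, ?_⟩
  · have := Nat.add_two_le_nth_prime (B + (e₀ g : ℕ))
    simp only
    omega
  · intro s t hst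
    have := Nat.nth_injective Nat.infinite_setOfPred_prime hst
    apply e₀.injective
    apply Fin.ext
    omega

/-- the residue class: `r ≡ a` modulo `q`, `r + t ≡ 0` modulo `p t` for all shifts `t` in `U` (shifted by `M`) -/
theorem class_for (q a M : ℕ) (hq : 0 < q) (U : Finset ℕ) (S : ℕ) :
    ∃ Q r : ℕ, 0 < Q ∧ Q.Coprime q ∧ r ≡ a [MOD q] ∧ M ≤ r ∧
      (∀ p : ℕ, p.Prime → p ∣ Q → S < p) ∧
      (∀ t ∈ U, ∃ p : ℕ, p.Prime ∧ p ∣ Q ∧ p ∣ r + t) ∧
      ∀ v : ℕ, v ≤ S → v ∉ U → (∀ t ∈ U, t ≤ S) → (r + v).Coprime Q := by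
  classical
  obtain ⟨p, hpp, hpB, hpinj⟩ := many_primes (ι := U) (S + q)
  -- moduli indexed by `Option U`
  set md : Option U → ℕ := fun o => o.elim q (fun t => p t) with hmd
  -- target classes
  have hroot : ∀ t : U, ∃ c : ℕ, p t ∣ c + (t : ℕ) := by
    intro t
    refine ⟨p t * (t : ℕ) - (t : ℕ), ?_⟩
    have h1 : (t : ℕ) ≤ p t * (t : ℕ) := Nat.le_mul_of_pos_left _ (hpp t).pos
    rw [Nat.sub_add_cancel h1]
    exact dvd_mul_right _ _
  choose c hc using hroot
  set cs : Option U → ℕ := fun o => o.elim a c with hcs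
  have hpair : Set.Pairwise ((univ : Finset (Option U)) : Set (Option U)) (Function.onFun Nat.Coprime md) := by
    rintro (_ | s) _ (_ | t) _ hst
    · exact absurd rfl hst
    · show q.Coprime (p t)
      rw [Nat.coprime_comm, (Nat.Prime.coprime_iff_not_dvd (hpp t))]
      intro hd
      have h1 := Nat.le_of_dvd hq hd
      have h2 := hpB t
      omega
    · show (p s).Coprime q
      rw [(Nat.Prime.coprime_iff_not_dvd (hpp s))]
      intro hd
      have h1 := Nat.le_of_dvd hq hd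
      have h2 := hpB s
      omega
    · show (p s).Coprime (p t)
      exact (Nat.coprime_primes (hpp s) (hpp t)).2 fun h => hst (by rw [hpinj h])
  obtain ⟨r₀, hr₀⟩ := Nat.chineseRemainderOfFinset cs md univ (fun o _ => by
    rcases o with _ | t
    · exact hq.ne'
    · exact (hpp t).ne_zero) hpair
  set Q : ℕ := ∏ t : U, p t with hQ
  have hQ0 : 0 < Q := prod_pos fun g _ => (hpp g).pos
  have hpQ : ∀ t : U, p t ∣ Q := fun t => dvd_prod_of_mem p (mem_univ t)
  have hdvQ : ∀ l : ℕ, l.Prime → l ∣ Q → ∃ t : U, l = p t := by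
    intro l hl hd
    obtain ⟨t, -, ht⟩ := (hl.prime.dvd_finsetProd_iff _).1 hd
    exact ⟨t, (Nat.prime_dvd_prime_iff_eq hl (hpp t)).1 ht⟩
  have hqQ : Q.Coprime q := by
    rw [hQ]
    refine Nat.Coprime.prod_left fun t _ => ?_
    rw [(Nat.Prime.coprime_iff_not_dvd (hpp t))]
    intro hd
    have h1 := Nat.le_of_dvd hq hd
    have h2 := hpB t
    omega
  have hrt : ∀ t : U, p t ∣ r₀ + q * Q * M + (t : ℕ) := by
    intro t
    have h1 : r₀ ≡ c t [MOD p t] := hr₀ (some t) (mem_univ _)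
    have h2 : q * Q * M ≡ 0 [MOD p t] :=
      (Nat.modEq_zero_iff_dvd).2 (((hpQ t).mul_left q).mul_right M)
    have h3 : r₀ + q * Q * M + (t : ℕ) ≡ c t + 0 + (t : ℕ) [MOD p t] := (h1.add h2).add_right _
    have h4 : c t + 0 + (t : ℕ) ≡ 0 [MOD p t] := by
      rw [add_zero]
      exact (Nat.modEq_zero_iff_dvd).2 (hc t)
    exact (Nat.modEq_zero_iff_dvd).1 (h3.trans h4)
  refine ⟨Q, r₀ + q * Q * M, hQ0, hqQ, ?_, ?_, ?_, ?_, ?_⟩
  · have h1 : r₀ ≡ a [MOD q] := hr₀ none (mem_univ _)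
    have h2 : q * Q * M ≡ 0 [MOD q] :=
      (Nat.modEq_zero_iff_dvd).2 (((dvd_mul_right q Q)).mul_right M)
    simpa using h1.add h2
  · have : 1 * M ≤ q * Q * M := Nat.mul_le_mul_right _ (Nat.mul_pos hq hQ0)
    omega
  · intro l hl hd
    obtain ⟨t, rfl⟩ := hdvQ l hl hd
    have := hpB t
    omega
  · intro t ht
    exact ⟨p ⟨t, ht⟩, hpp _, hpQ _, hrt ⟨t, ht⟩⟩
  · intro v hv hvU hUS
    rw [hQ]
    refine Nat.Coprime.prod_right fun t _ => ?_
    rw [Nat.coprime_comm, (Nat.Prime.coprime_iff_not_dvd (hpp t))]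
    intro hd
    have h1 := hrt t
    have h2 := hpB t
    have h3 := hUS t t.2
    have hne : (t : ℕ) ≠ v := fun h => hvU (h ▸ t.2)
    rcases lt_or_gt_of_ne hne with h | h
    · have h4 : p t ∣ v - (t : ℕ) := by
        have e : v - (t : ℕ) = (r₀ + q * Q * M + v) - (r₀ + q * Q * M + (t : ℕ)) := by omega
        rw [e]
        exact Nat.dvd_sub hd h1
      have h5 := Nat.le_of_dvd (by omega) h4
      omega
    · have h4 : p t ∣ (t : ℕ) - v := by
        have e : (t : ℕ) - v = (r₀ + q * Q * M + (t : ℕ)) - (r₀ + q * Q * M + v) := by omega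
        rw [e]
        exact Nat.dvd_sub h1 hd
      have h5 := Nat.le_of_dvd (by omega) h4
      omega

/-- comparison of the counts at `N = ⌊(x - b) / G⌋` and at `x` -/
theorem cmp (G b C : ℕ) (hG : 0 < G) (c : ℝ) (hc : 0 < c) : ∀ᶠ x : ℝ in atTop,
    x / Real.log x ^ (C + 1) ≤ c * ((⌊(x - b) / G⌋₊ : ℕ) / Real.log (⌊(x - b) / G⌋₊ : ℕ) ^ C) := by
  have hGr : (1 : ℝ) ≤ G := by exact_mod_cast hG
  have hlog : ∀ᶠ x : ℝ in atTop, 2 * G / c ≤ Real.log x := Real.tendsto_log_atTop.eventually_ge_atTop _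
  filter_upwards [hlog, eventually_ge_atTop (6 * (b + G : ℝ) + 2)] with x h1 h2
  have hb : (0 : ℝ) ≤ b := Nat.cast_nonneg b
  set N : ℕ := ⌊(x - b) / G⌋₊ with hN
  have h3 : (x - b) / G < N + 1 := Nat.lt_floor_add_one _
  have h4 : (N : ℝ) ≤ (x - b) / G := Nat.floor_le (div_nonneg (by linarith) (by linarith))
  rw [div_lt_iff₀ (by linarith)] at h3
  rw [le_div_iff₀ (by linarith)] at h4
  have h5 : x ≤ 2 * (N * G) := by nlinarith
  have h6 : (N : ℝ) ≤ x := by
    have : (N : ℝ) * 1 ≤ N * G := mul_le_mul_of_nonneg_left hGr (Nat.cast_nonneg _)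
    linarith
  have hN2 : (2 : ℝ) ≤ N := by
    by_contra hcon
    push Not at hcon
    nlinarith
  have h7 : 0 < Real.log N := Real.log_pos (by linarith)
  have h8 : Real.log N ≤ Real.log x := Real.log_le_log (by linarith) h6
  have h9 : 0 < Real.log x := by linarith
  have h10 : (N : ℝ) / Real.log x ^ C ≤ N / Real.log N ^ C :=
    div_le_div_of_nonneg_left (by linarith) (by positivity) (pow_le_pow_left₀ h7.le h8 C)
  refine le_trans ?_ (mul_le_mul_of_nonneg_left h10 hc.le)
  rw [pow_succ, ← div_div, div_le_iff₀ h9]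
  have h11 : 2 * (G : ℝ) ≤ Real.log x * c := by
    rw [div_le_iff₀ hc] at h1
    exact h1
  have h12 : x ≤ c * N * Real.log x := by
    calc x ≤ 2 * (N * G) := h5
      _ = N * (2 * G) := by ring
      _ ≤ N * (Real.log x * c) := mul_le_mul_of_nonneg_left h11 (Nat.cast_nonneg _)
      _ = c * N * Real.log x := by ring
  calc x / Real.log x ^ C ≤ (c * N * Real.log x) / Real.log x ^ C := by
        apply div_le_div_of_nonneg_right h12 (by positivity)
    _ = c * (N / Real.log x ^ C) * Real.log x := by ring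

open Classical in
/-- **exact patterns inside every set of `n₀` shifts in one residue class modulo the small primes** -/
theorem exactV (k : ℕ) : ∃ n₀ B : ℕ, k + 1 ≤ n₀ ∧ ∀ V : Finset ℕ, V.card = n₀ →
    (∀ p : ℕ, p.Prime → p ≤ n₀ → ∃ c : ℕ, ∀ v ∈ V, v ≡ c [MOD p]) →
    ∀ q a : ℕ, 1 ≤ q → (∀ v ∈ V, (a + v).Coprime q) → ∀ M : ℕ, ∀ᶠ x : ℝ in atTop,
      ∃ T ⊆ V, k + 1 ≤ T.card ∧ x / Real.log x ^ B ≤ (patN q a M T x : ℝ) := by
  obtain ⟨K, hK, δ, hδ, H0⟩ := lamE0 (4 * k + 4) k (by omega) (by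
    push_cast
    have : (0 : ℝ) ≤ k := Nat.cast_nonneg k
    linarith)
  refine ⟨(4 * k + 4) * K, (4 * k + 4) * K + 2, ?_, ?_⟩
  · have : (4 * k + 4) * 1 ≤ (4 * k + 4) * K := Nat.mul_le_mul_left _ hK
    omega
  intro V hVc hVp q a hq hcop M
  have e : Fin (4 * k + 4) × Fin K ≃ V := Fintype.equivOfCardEq (by
    rw [Fintype.card_prod, Fintype.card_fin, Fintype.card_fin, Fintype.card_coe, hVc])
  set S : ℕ := V.sup id with hS
  have hVS : ∀ v ∈ V, v ≤ S := fun v hv => le_sup (f := id) hv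
  set S' : ℕ := S + 2 * M + (4 * k + 4) * K with hS'
  set U : Finset ℕ := (range (S + 2 * M + 1)).filter (fun t => ¬ ∃ v ∈ V, t = v + M) with hU
  obtain ⟨Q, r, hQ0, hQq, hra, -, hQp, hrU, hrV⟩ := class_for q (a + (q - 1) * M) 0 hq U S'
  have hUS : ∀ t ∈ U, t ≤ S' := by
    intro t ht
    rw [hU, mem_filter, mem_range] at ht
    omega
  have hra' : r + M ≡ a [MOD q] := by
    have h1 := hra.add_right M
    have e1 : a + (q - 1) * M + M = a + q * M := by
      obtain ⟨q', rfl⟩ : ∃ q', q = q' + 1 := ⟨q - 1, by omega⟩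
      simp only [Nat.add_sub_cancel]
      ring
    rw [e1] at h1
    exact h1.trans (by simp [Nat.ModEq])
  set G : ℕ := q * Q with hG
  have hG0 : 0 < G := Nat.mul_pos hq hQ0
  have hcopG : ∀ v ∈ V, (r + M + v).Coprime G := by
    intro v hv
    rw [hG]
    refine Nat.Coprime.mul_right ?_ ?_
    · have h1 : r + M + v ≡ a + v [MOD q] := hra'.add_right v
      have h2 := hcop v hv
      unfold Nat.Coprime at h2 ⊢
      rw [Nat.ModEq.gcd_eq h1]
      exact h2
    · have h1 := hrV (v + M) (by have := hVS v hv; omega) (by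
        rw [hU, mem_filter]
        rintro ⟨-, h2⟩
        exact h2 ⟨v, hv, rfl⟩) hUS
      have e1 : r + (v + M) = r + M + v := by ring
      rwa [e1] at h1
  set H : Fin (4 * k + 4) → Fin K → ℤ × ℤ := fun g i => ((G : ℤ), ((r + M + (e (g, i) : ℕ) : ℕ) : ℤ)) with hH
  have hinj : Function.Injective (fun x : Fin (4 * k + 4) × Fin K => H x.1 x.2) := by
    intro x y hxy
    have h1 : ((r + M + (e (x.1, x.2) : ℕ) : ℕ) : ℤ) = ((r + M + (e (y.1, y.2) : ℕ) : ℕ) : ℤ) :=
      congrArg Prod.snd hxy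
    have h2 : r + M + (e (x.1, x.2) : ℕ) = r + M + (e (y.1, y.2) : ℕ) := by exact_mod_cast h1
    have h3 : e (x.1, x.2) = e (y.1, y.2) := Subtype.ext (by omega)
    exact e.injective h3
  have hpos : ∀ g i, 0 < (H g i).1 ∧ IsCoprime (H g i).1 (H g i).2 := by
    intro g i
    refine ⟨?_, ?_⟩
    · show (0 : ℤ) < (G : ℤ)
      exact_mod_cast hG0
    · show IsCoprime (G : ℤ) ((r + M + (e (g, i) : ℕ) : ℕ) : ℤ)
      rw [Nat.isCoprime_iff_coprime]
      exact (hcopG _ (e (g, i)).2).symm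
  have hloc : ∀ p : ℕ, p.Prime → p ≤ (4 * k + 4) * K → ∃ r' : ℤ, ∀ g i, ¬ (p : ℤ) ∣ (H g i).1 * r' + (H g i).2 := by
    intro p hp hpK
    by_cases hpG : p ∣ G
    · refine ⟨0, fun g i hd => ?_⟩
      rw [mul_zero, zero_add] at hd
      have hd' : (p : ℤ) ∣ ((r + M + (e (g, i) : ℕ) : ℕ) : ℤ) := hd
      have h1 : p ∣ r + M + (e (g, i) : ℕ) := by exact_mod_cast hd'
      exact hp.one_lt.ne' (Nat.eq_one_of_dvd_coprimes (hcopG _ (e (g, i)).2) h1 hpG)
    · obtain ⟨c, hc⟩ := hVp p hp (by simpa using hpK)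
      have hcpG : IsCoprime (G : ℤ) (p : ℤ) :=
        Nat.isCoprime_iff_coprime.2 ((Nat.Prime.coprime_iff_not_dvd hp).2 hpG).symm
      obtain ⟨u, w, huw⟩ := hcpG
      refine ⟨u * (1 - ((r : ℤ) + M + c)), fun g i hd => ?_⟩
      have hd' : (p : ℤ) ∣ (G : ℤ) * (u * (1 - ((r : ℤ) + M + c))) + ((r + M + (e (g, i) : ℕ) : ℕ) : ℤ) := hd
      push_cast at hd'
      have h1 : (p : ℤ) ∣ ((e (g, i) : ℕ) : ℤ) - c :=
        (Nat.modEq_iff_dvd.1 (hc _ (e (g, i)).2).symm)
      have e1 : (G : ℤ) * (u * (1 - ((r : ℤ) + M + c))) + ((r : ℤ) + M + ((e (g, i) : ℕ) : ℤ)) =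
          1 + (((e (g, i) : ℕ) : ℤ) - c) - p * (w * (1 - ((r : ℤ) + M + c))) := by
        linear_combination (1 - ((r : ℤ) + M + c)) * huw
      rw [e1] at hd'
      have h2 : (p : ℤ) ∣ 1 := by
        have h3 := dvd_add hd' (dvd_mul_right (p : ℤ) (w * (1 - ((r : ℤ) + M + c))))
        rw [sub_add_cancel] at h3
        exact (dvd_add_left h1).1 h3
      have h3 : p ∣ 1 := by exact_mod_cast h2
      exact hp.one_lt.ne' (Nat.dvd_one.1 h3)
  obtain ⟨A, hA⟩ := adf_ev (univ.image (fun x : Fin (4 * k + 4) × Fin K => H x.1 x.2)) (by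
    intro f hf
    obtain ⟨x, -, rfl⟩ := mem_image.1 hf
    exact hpos x.1 x.2)
  obtain ⟨s₀, c, hc, H1⟩ := H0 A
  have ht : Tendsto (fun x : ℝ => ⌊(x - ((r + M : ℕ) : ℝ)) / (G : ℝ)⌋₊) atTop atTop := by
    apply tendsto_nat_floor_atTop.comp
    apply Tendsto.atTop_div_const (by exact_mod_cast hG0)
    exact tendsto_atTop_add_const_right _ _ tendsto_id
  filter_upwards [ht.eventually H1, ht.eventually hA, ht.eventually (eventually_ge_atTop 32),
    cmp G (r + M) ((4 * k + 4) * K + 1) hG0 c hc, eventually_ge_atTop ((r + M : ℕ) : ℝ)]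
    with x hN hAN hN32 hcmp hxr
  set N : ℕ := ⌊(x - ((r + M : ℕ) : ℝ)) / (G : ℝ)⌋₊ with hNdef
  obtain ⟨s, E, -, -, -, hE, hcard⟩ := hN H hinj
    (fun g i => hAN _ (mem_image.2 ⟨(g, i), mem_univ _, rfl⟩)) hloc
  refine ⟨E.image (fun x => (e x : ℕ)), ?_, ?_, ?_⟩
  · intro v hv
    obtain ⟨x, -, rfl⟩ := mem_image.1 hv
    exact (e x).2
  · have hinjE : Function.Injective (fun x : Fin (4 * k + 4) × Fin K => (e x : ℕ)) :=
      fun x y hxy => e.injective (Subtype.ext hxy)
    rw [card_image_of_injective _ hinjE]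
    exact hE.trans card_image_le
  · refine (hcmp.trans hcard).trans ?_
    rw [Nat.cast_le]
    have hfin : {n : ℕ | (n : ℝ) ≤ x ∧ n ≡ a [MOD q] ∧ ∀ m : ℕ, n ≤ m + M →
        m ≤ n + (E.image (fun x => (e x : ℕ))).sup id + M →
        (m.Prime ↔ ∃ v ∈ E.image (fun x => (e x : ℕ)), m = n + v)}.Finite := by
      refine (Finset.finite_toSet (Finset.range (⌊x⌋₊ + 1))).subset fun n hn => ?_
      rw [mem_coe, mem_range]
      have := Nat.le_floor hn.1
      omega
    unfold patN
    rw [← Set.ncard_coe_finset]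
    refine Set.ncard_le_ncard_of_injOn (fun m => G * m + (r + M)) ?_ ?_ hfin
    · intro m hm
      rw [mem_coe] at hm
      unfold Re at hm
      obtain ⟨h1, h2, -, -, h3⟩ := mem_filter.1 hm
      rw [mem_Icc] at h1
      have hm2 : 2 ≤ m := by
        have h4 : (32 : ℝ) ≤ N := by exact_mod_cast hN32
        have h5 : (2 : ℝ) ≤ m := by linarith
        exact_mod_cast h5
      have hGr : (0 : ℝ) < G := by exact_mod_cast hG0
      refine ⟨?_, ?_, ?_⟩
      · have h4 : (m : ℝ) ≤ N := by exact_mod_cast h1.2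
        have h5 : (N : ℝ) ≤ (x - ((r + M : ℕ) : ℝ)) / G := Nat.floor_le (div_nonneg (by linarith) hGr.le)
        rw [le_div_iff₀ hGr] at h5
        have h6 : (m : ℝ) * G ≤ N * G := mul_le_mul_of_nonneg_right h4 hGr.le
        push_cast at h5 ⊢
        nlinarith
      · have h4 : G * m ≡ 0 [MOD q] := (Nat.modEq_zero_iff_dvd).2 ((dvd_mul_right q Q).mul_right m)
        have h5 := h4.add hra'
        simpa using h5
      · intro m' hm1 hm2'
        have hsup : (E.image (fun x => (e x : ℕ))).sup id ≤ S := by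
          refine Finset.sup_le fun v hv => ?_
          obtain ⟨y, -, rfl⟩ := mem_image.1 hv
          exact hVS _ (e y).2
        obtain ⟨t, ht⟩ : ∃ t, m' = G * m + r + t := ⟨m' - (G * m + r), by omega⟩
        by_cases htV : ∃ v ∈ V, t = v + M
        · obtain ⟨v, hv, rfl⟩ := htV
          obtain ⟨y, hy⟩ := e.surjective ⟨v, hv⟩
          have hyv : (e y : ℕ) = v := by rw [hy]
          have h4 := h3 y.1 y.2
          have e1 : (H y.1 y.2).1 * (m : ℤ) + (H y.1 y.2).2 = ((m' : ℕ) : ℤ) := by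
            simp only [hH]
            rw [ht, ← hyv]
            push_cast
            ring
          rw [e1, Int.toNat_natCast] at h4
          rw [h4]
          constructor
          · intro h5
            exact ⟨v, mem_image.2 ⟨y, h5, hyv⟩, by omega⟩
          · rintro ⟨v', hv', h5⟩
            have h6 : v' = v := by omega
            subst h6
            obtain ⟨z, hz, hzv⟩ := mem_image.1 hv'
            have h7 : e z = e y := Subtype.ext (by rw [hzv, hyv])
            rw [← e.injective h7]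
            exact hz
        · have htU : t ∈ U := by
            rw [hU, mem_filter, mem_range]
            exact ⟨by omega, htV⟩
          obtain ⟨p, hp, hpQ, hpt⟩ := hrU t htU
          constructor
          · intro hpr
            exfalso
            have h4 : p ∣ m' := by
              rw [ht, add_assoc]
              exact dvd_add ((hpQ.mul_left q).mul_right m) hpt
            have h5 := (Nat.prime_dvd_prime_iff_eq hp hpr).1 h4
            have h6 : p ≤ Q := Nat.le_of_dvd hQ0 hpQ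
            have h7 : Q * 2 ≤ G * m := by
              rw [hG]
              calc Q * 2 = 1 * Q * 2 := by ring
                _ ≤ q * Q * m := Nat.mul_le_mul (Nat.mul_le_mul_right _ hq) hm2
            omega
          · rintro ⟨v', hv', h5⟩
            exfalso
            obtain ⟨z, -, hzv⟩ := mem_image.1 hv'
            apply htV
            refine ⟨v', ?_, by omega⟩
            rw [← hzv]
            exact (e z).2
    · intro m _ m' _ hmm
      have h1 : G * m + (r + M) = G * m' + (r + M) := hmm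
      exact Nat.eq_of_mul_eq_mul_left hG0 (by omega)

end Pool.Agent.H50.IC
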