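import Pool.Agent.H50.IC.Core

/-! From patterns of shifts to the primes which follow `p_i`, `i` in a residue class. -/

set_option autoImplicit false
set_option maxHeartbeats 4000000

namespace Pool.Agent.H50.IC

open Finset Filter Topology
open Pool.Agent.N914.CP (patN Str Good Hyp)
open Pool.Agent.N914.IX (GoodI index cnt Exact pr pr_counting le_pr half_loss)

/-- the primes after `p_i`, up to `p_i + max D`, are exactly the `p_i + d`, `d ∈ D` -/
def Follow (i : ℕ) (D : Finset ℕ) : Prop :=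
  ∀ y : ℕ, pr i < y → y ≤ pr i + D.sup id → (y.Prime ↔ ∃ d ∈ D, y = pr i + d)

/-- the number of the indices `i ≥ 1`, `i ≡ j (mod n)`, with `p_i ≤ x` and `Follow i D` -/
noncomputable def fol (n j : ℕ) (D : Finset ℕ) (x : ℝ) : ℕ :=
  {i : ℕ | 1 ≤ i ∧ i ≡ j [MOD n] ∧ (pr i : ℝ) ≤ x ∧ Follow i D}.ncard

theorem fol_finite (n j : ℕ) (D : Finset ℕ) (x : ℝ) :
    {i : ℕ | 1 ≤ i ∧ i ≡ j [MOD n] ∧ (pr i : ℝ) ≤ x ∧ Follow i D}.Finite := by
  refine Pool.Agent.N914.IX.finite_le x _ fun i hi => ?_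
  have : (i : ℝ) ≤ pr i := by exact_mod_cast le_pr i
  exact this.trans hi.2.2.1

/-- the differences to the least element -/
def diffs (W : Finset ℕ) (t₀ : ℕ) : Finset ℕ := (W.erase t₀).image (fun v => v - t₀)

theorem cnt_le_fol (n j t₀ : ℕ) (W : Finset ℕ) (ht₀ : t₀ ∈ W) (hmin : ∀ v ∈ W, t₀ ≤ v) (x y : ℝ)
    (hxy : x + t₀ ≤ y) : cnt n j 1 0 0 W x ≤ fol n j (diffs W t₀) y := by
  refine Set.ncard_le_ncard_of_injOn (fun m => Nat.primeCounting (m + t₀)) ?_ ?_
    (fol_finite n j (diffs W t₀) y)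
  · rintro m ⟨hm, -, hex, t, ht, htmin, hr⟩
    have htu : t = t₀ := le_antisymm (htmin t₀ ht₀) (hmin t ht)
    subst htu
    have hpu : (m + t).Prime := (hex (m + t) ⟨t, ht, by omega⟩ ⟨t, ht, by omega⟩).2 ⟨t, ht, rfl⟩
    have h1 := pr_counting (m + t) hpu
    refine ⟨?_, hr, ?_, ?_⟩
    · by_contra hcon
      have h4 : Nat.primeCounting (m + t) = 0 := by omega
      unfold Nat.primeCounting Nat.primeCounting' at h4
      rw [Nat.count_succ, if_pos hpu] at h4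
      omega
    · rw [h1]
      push_cast
      linarith
    · intro z hz1 hz2
      have e0 : pr (Nat.primeCounting (m + t)) = m + t := h1
      rw [e0] at hz1 hz2 ⊢
      have hDne : (diffs W t).Nonempty := by
        rw [nonempty_iff_ne_empty]
        intro h0
        rw [h0, sup_empty] at hz2
        simp only [bot_eq_zero', add_zero] at hz2
        omega
      obtain ⟨d, hd, hds⟩ := exists_mem_eq_sup (diffs W t) hDne id
      rw [hds] at hz2
      simp only [id] at hz2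
      obtain ⟨w, hw, hwd⟩ := mem_image.1 hd
      have hw' := mem_of_mem_erase hw
      have hwt := hmin w hw'
      rw [hex z ⟨t, ht, by omega⟩ ⟨w, hw', by omega⟩]
      constructor
      · rintro ⟨v, hv, hzv⟩
        have hvt := hmin v hv
        refine ⟨v - t, mem_image.2 ⟨v, mem_erase.2 ⟨by rintro rfl; omega, hv⟩, rfl⟩, by omega⟩
      · rintro ⟨e, he, hze⟩
        obtain ⟨v, hv, hve⟩ := mem_image.1 he
        have hv' := mem_of_mem_erase hv
        have hvt := hmin v hv'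
        exact ⟨v, hv', by omega⟩
  · rintro m ⟨hm, -, hex, -⟩ m' ⟨hm', -, hex', -⟩ he
    have hpu : (m + t₀).Prime := (hex (m + t₀) ⟨t₀, ht₀, by omega⟩ ⟨t₀, ht₀, by omega⟩).2 ⟨t₀, ht₀, rfl⟩
    have hpu' : (m' + t₀).Prime :=
      (hex' (m' + t₀) ⟨t₀, ht₀, by omega⟩ ⟨t₀, ht₀, by omega⟩).2 ⟨t₀, ht₀, rfl⟩
    have h1 := pr_counting (m + t₀) hpu
    have h2 := pr_counting (m' + t₀) hpu'
    simp only at he
    rw [he, h2] at h1
    omega

theorem diffs_card (W : Finset ℕ) (t₀ : ℕ) (ht₀ : t₀ ∈ W) (hmin : ∀ v ∈ W, t₀ ≤ v) :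
    (diffs W t₀).card + 1 = W.card := by
  unfold diffs
  rw [card_image_of_injOn, card_erase_of_mem ht₀]
  · have := card_pos.2 ⟨t₀, ht₀⟩
    omega
  · intro u hu v hv huv
    have h1 := hmin u (mem_of_mem_erase hu)
    have h2 := hmin v (mem_of_mem_erase hv)
    simp only at huv
    omega

theorem of_diffs (W : Finset ℕ) (t₀ : ℕ) (ht₀ : t₀ ∈ W) (hmin : ∀ v ∈ W, t₀ ≤ v) :
    W = (insert 0 (diffs W t₀)).image (fun d => d + t₀) := by
  ext v
  rw [mem_image]
  constructor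
  · intro hv
    have h1 := hmin v hv
    refine ⟨v - t₀, ?_, by omega⟩
    rw [mem_insert]
    by_cases h : v = t₀
    · left; omega
    · right
      exact mem_image.2 ⟨v, mem_erase.2 ⟨h, hv⟩, rfl⟩
  · rintro ⟨d, hd, rfl⟩
    rcases mem_insert.1 hd with rfl | hd
    · rw [zero_add]; exact ht₀
    · obtain ⟨w, hw, rfl⟩ := mem_image.1 hd
      have h1 := hmin w (mem_of_mem_erase hw)
      rw [Nat.sub_add_cancel h1]
      exact mem_of_mem_erase hw

/-- many sets of differences from many sets of shifts -/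
theorem many_diffs (k H : ℕ) (hH : 1 ≤ H) (c : ℝ) (A : Finset ℕ → Prop) (B : Finset ℕ → Prop)
    [DecidablePred A] [DecidablePred B]
    (hAB : ∀ W : Finset ℕ, W ⊆ range H → ∀ t₀ ∈ W, (∀ v ∈ W, t₀ ≤ v) → W.card = k + 1 → A W → B (diffs W t₀))
    (h : c * (H : ℝ) ^ (k + 1) ≤ (((powersetCard (k + 1) (range H)).filter A).card : ℝ)) :
    c * (H : ℝ) ^ k ≤ (((powersetCard k (Icc 1 H)).filter B).card : ℝ) := by
  classical
  have hH0 : (0 : ℝ) < H := by exact_mod_cast hH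
  have h2 : ((powersetCard (k + 1) (range H)).filter A).card ≤
      (((powersetCard k (Icc 1 H)).filter B) ×ˢ range H).card := by
    have h3 : ∀ W ∈ (powersetCard (k + 1) (range H)).filter A, ∃ y : Finset ℕ × ℕ,
        y ∈ ((powersetCard k (Icc 1 H)).filter B) ×ˢ range H ∧
        W = (insert 0 y.1).image (fun d => d + y.2) := by
      intro W hW
      rw [mem_filter, mem_powersetCard] at hW
      obtain ⟨⟨hWr, hWc⟩, hWA⟩ := hW
      have hne : W.Nonempty := card_pos.1 (by omega)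
      have ht₀ := min'_mem W hne
      have hmin : ∀ v ∈ W, W.min' hne ≤ v := fun v hv => min'_le W v hv
      set t₀ := W.min' hne with ht₀d
      refine ⟨(diffs W t₀, t₀), ?_, of_diffs W t₀ ht₀ hmin⟩
      rw [mem_product, mem_filter, mem_powersetCard]
      refine ⟨⟨⟨?_, ?_⟩, hAB W hWr t₀ ht₀ hmin hWc hWA⟩, hWr ht₀⟩
      · intro d hd
        obtain ⟨w, hw, rfl⟩ := mem_image.1 hd
        have h1 := hmin w (mem_of_mem_erase hw)
        have h4 := mem_range.1 (hWr (mem_of_mem_erase hw))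
        have h5 : w ≠ t₀ := ne_of_mem_erase hw
        rw [mem_Icc]
        omega
      · show (diffs W t₀).card = k
        have := diffs_card W t₀ ht₀ hmin
        omega
    choose! Φ hΦ1 hΦ2 using h3
    refine card_le_card_of_injOn Φ (fun W hW => by exact_mod_cast hΦ1 W hW) ?_
    intro W hW W' hW' he
    rw [hΦ2 W hW, hΦ2 W' hW', he]
  rw [card_product, card_range] at h2
  have h3 : (((powersetCard (k + 1) (range H)).filter A).card : ℝ) ≤
      (((powersetCard k (Icc 1 H)).filter B).card : ℝ) * H := by exact_mod_cast h2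
  have h4 := h.trans h3
  have h5 : (c * (H : ℝ) ^ k) * H ≤ (((powersetCard k (Icc 1 H)).filter B).card : ℝ) * H := by
    calc (c * (H : ℝ) ^ k) * H = c * (H : ℝ) ^ (k + 1) := by ring
      _ ≤ _ := h4
  exact le_of_mul_le_mul_right h5 hH0

/-- a weaker exponent -/
theorem rich1 (k m : ℕ) (hm : 1 ≤ m) : ∃ B : ℕ, (∀ L R M : ℕ, Rich L R (GoodI k B m R M)) ∧
    ∀ L R M : ℕ, Rich L R (GoodI k (B + 1) m R M) := by
  obtain ⟨B, hB⟩ := rich k m hm
  refine ⟨B, hB, fun L R M => ?_⟩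
  obtain ⟨K, hK⟩ := hB L R M
  refine ⟨K, fun V hV Q => ?_⟩
  obtain ⟨x₀, hx₀⟩ := hK V hV Q
  refine ⟨max x₀ (Real.exp 1), fun q a x h => ?_⟩
  obtain ⟨W, hW, hWc, hg⟩ := hx₀ q a x fun ρ => by
    obtain ⟨e1, e2, e3, e4⟩ := h ρ
    exact ⟨e1, e2, e3, (le_max_left _ _).trans e4⟩
  refine ⟨W, hW, hWc, fun ρ T hT h1 h2 r => le_trans ?_ (hg ρ T hT h1 h2 r)⟩
  have h3 : Real.exp 1 ≤ x ρ := (le_max_right _ _).trans (h ρ).2.2.2
  have h4 : 0 < x ρ := (Real.exp_pos 1).trans_le h3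
  have h5 : 1 ≤ Real.log (x ρ) := (Real.le_log_iff_exp_le h4).2 h3
  exact div_le_div_of_nonneg_left h4.le (by positivity) (pow_le_pow_right₀ h5 (Nat.le_succ B))

open Classical in
/-- a positive proportion of the sets of `k` differences, at every large `x` -/
theorem gapsK (n k B : ℕ) (hR : Rich (k + 1) 1 (GoodI k B n 1 0)) (r : ℕ) (P : Fin r → Polynomial ℝ)
    (hP : ∀ h : Fin r → ℤ, h ≠ 0 → ∃ i, 2 ≤ i ∧ Irrational ((∑ l, (h l : ℝ) • P l).coeff i))
    (ε : ℝ) (hε : 0 < ε) :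
    ∃ c : ℝ, 0 < c ∧ ∃ H₀ : ℕ, ∀ H : ℕ, H₀ ≤ H → ∃ x₀ : ℝ, ∀ x : ℝ, x₀ ≤ x → ∀ θ : Fin r → ℝ,
    c * (H : ℝ) ^ k ≤ (((powersetCard k (Icc 1 H)).filter (fun D =>
      (∀ u : ℕ, u ∈ insert 0 D → ∀ v : ℕ, v ∈ insert 0 D → u < v → ∀ l, ∃ m : ℤ,
        |(P l).eval ((v : ℝ) - u) - θ l - m| < ε) ∧
      ∀ j : ℕ, x / Real.log x ^ (B + 1) ≤ (fol n j D x : ℝ))).card : ℝ) := by
  obtain ⟨c, hc, N₀, h⟩ := poly hR r P hP 1 one_pos ε hε
  refine ⟨c, hc, max 1 N₀, fun H hH => ?_⟩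
  obtain ⟨x₀, hx₀⟩ := h H ((le_max_right _ _).trans hH) 1
  obtain ⟨x₁, hx₁⟩ := eventually_atTop.1 (half_loss B)
  refine ⟨max (max (2 * x₀) x₁) (2 * H), fun x hx θ => ?_⟩
  have hx1 : 2 * x₀ ≤ x := ((le_max_left _ _).trans (le_max_left _ _)).trans hx
  have hx2 : x₁ ≤ x := ((le_max_right _ _).trans (le_max_left _ _)).trans hx
  have hx3 : 2 * (H : ℝ) ≤ x := (le_max_right _ _).trans hx
  have hH1 : 1 ≤ H := (le_max_left _ _).trans hH
  have h1 := hx₀ (fun _ => 1) (fun _ => 0) (fun _ => x / 2) (range H)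
    ⟨fun _ => ⟨le_refl 1, le_refl 1, by linarith⟩, Finset.Subset.refl _,
    by rw [card_range, one_mul], fun _ v _ => Nat.coprime_one_right _⟩ θ
  refine many_diffs k H hH1 c _ _ ?_ h1
  rintro W hW t₀ ht₀ hmin hWc ⟨hdiff, hgood⟩
  have hmem : ∀ u ∈ insert 0 (diffs W t₀), u + t₀ ∈ W := by
    intro u hu
    rw [of_diffs W t₀ ht₀ hmin]
    exact mem_image.2 ⟨u, hu, rfl⟩
  refine ⟨fun u hu v hv huv l => ?_, fun j => ?_⟩
  · obtain ⟨m, hm⟩ := hdiff (u + t₀) (hmem u hu) (v + t₀) (hmem v hv) (by omega) l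
    refine ⟨m, ?_⟩
    push_cast at hm
    rwa [add_sub_add_right_eq_sub] at hm
  · have h4 := hgood 0 W (Finset.Subset.refl _) (by omega) (by omega) j
    have h5 := cnt_le_fol n j t₀ W ht₀ hmin (x / 2) x (by
      have h6 : (t₀ : ℝ) ≤ H := by exact_mod_cast (mem_range.1 (hW ht₀)).le
      linarith)
    exact (hx₁ x hx2).trans (h4.trans (by exact_mod_cast h5))

/-- a fixed family for arbitrarily large `x` -/
theorem freq_family {α : Type} (S : Finset α) (Q : ℝ → α → Prop) (A : α → Prop) (c : ℝ)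
    [i1 : ∀ x, DecidablePred (fun D => A D ∧ Q x D)]
    [i2 : DecidablePred (fun D => A D ∧ ∃ᶠ x : ℝ in atTop, Q x D)]
    (h : ∀ᶠ x : ℝ in atTop, c ≤ ((S.filter (fun D => A D ∧ Q x D)).card : ℝ)) :
    c ≤ ((S.filter (fun D => A D ∧ ∃ᶠ x : ℝ in atTop, Q x D)).card : ℝ) := by
  classical
  have h1 : ∃ G ∈ S.powerset, ∃ᶠ x : ℝ in atTop, S.filter (fun D => A D ∧ Q x D) = G := by
    by_contra hcon
    push Not at hcon
    have h2 : ∀ᶠ x : ℝ in atTop, ∀ G ∈ S.powerset, ¬ S.filter (fun D => A D ∧ Q x D) = G := by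
      rw [eventually_all_finset]
      intro G hG
      have := hcon G hG
      simpa using this
    obtain ⟨x, hx⟩ := h2.exists
    exact hx _ (mem_powerset.2 (filter_subset _ _)) rfl
  obtain ⟨G, hG, hf⟩ := h1
  obtain ⟨x, hx1, hx2⟩ := (hf.and_eventually h).exists
  rw [hx1] at hx2
  refine hx2.trans ?_
  rw [Nat.cast_le]
  refine card_le_card fun D hD => ?_
  have hDx : D ∈ S.filter (fun D => A D ∧ Q x D) := by rw [hx1]; exact hD
  rw [mem_filter] at hDx ⊢
  refine ⟨hDx.1, hDx.2.1, hf.mono fun y hy => ?_⟩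
  have hDy : D ∈ S.filter (fun D => A D ∧ Q y D) := by rw [hy]; exact hD
  exact (mem_filter.1 hDy).2.2

end Pool.Agent.H50.IC
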