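import Pool.Agent.H50.IC.Exact
import Pool.Graph.R_pool_sql_team_seeded_63374d34.N914.IX.Main

/-! All the subsets with at most `k + 1` elements of a subset of every large set of shifts are patterns of
consecutive primes (Ramsey's theorem). -/

set_option autoImplicit false
set_option maxHeartbeats 4000000

namespace Pool.Agent.H50.IC

open Finset Filter Topology
open Pool.Agent.N914.CP (patN Str Good)
open Pool.Agent.N914.IX (ramseyC cut sparse)

/-- Ramsey's theorem for the subsets of all sizes up to `n` -/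
theorem ramseyAll (κ : Type) [Fintype κ] [Nonempty κ] : ∀ n m : ℕ, ∃ N : ℕ, ∀ V : Finset ℕ, N ≤ V.card →
    ∀ col : Finset ℕ → κ, ∃ W ⊆ V, W.card = m ∧ ∀ u ≤ n, ∃ c : κ, ∀ F ⊆ W, F.card = u → col F = c := by
  intro n
  induction n with
  | zero =>
    intro m
    obtain ⟨N, hN⟩ := ramseyC κ 0 m
    refine ⟨N, fun V hV col => ?_⟩
    obtain ⟨W, hW, hWc, c, hc⟩ := hN V hV col
    refine ⟨W, hW, hWc, fun u hu => ?_⟩
    have : u = 0 := by omega
    subst this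
    exact ⟨c, hc⟩
  | succ n ih =>
    intro m
    obtain ⟨N₁, hN₁⟩ := ramseyC κ (n + 1) m
    obtain ⟨N, hN⟩ := ih N₁
    refine ⟨N, fun V hV col => ?_⟩
    obtain ⟨W₁, hW₁, hW₁c, h₁⟩ := hN V hV col
    obtain ⟨W, hW, hWc, c, hc⟩ := hN₁ W₁ hW₁c.ge col
    refine ⟨W, hW.trans hW₁, hWc, fun u hu => ?_⟩
    rcases Nat.lt_or_ge u (n + 1) with h | h
    · obtain ⟨c', hc'⟩ := h₁ u (by omega)
      exact ⟨c', fun F hF hFu => hc' F (hF.trans hW) hFu⟩
    · have : u = n + 1 := by omega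
      subst this
      exact ⟨c, hc⟩

/-- a large subset in one residue class modulo `P` -/
theorem one_class (P K : ℕ) (hP : 0 < P) (V : Finset ℕ) (hV : P * K ≤ V.card) : ∃ V₁ ⊆ V, K ≤ V₁.card ∧
    ∃ c : ℕ, ∀ v ∈ V₁, v ≡ c [MOD P] := by
  classical
  obtain ⟨c, -, hc⟩ := Finset.exists_le_card_fiber_of_mul_le_card_of_maps_to (s := V)
    (t := range P) (n := K) (f := fun v => v % P)
    (fun v _ => mem_range.2 (Nat.mod_lt _ hP))
    ⟨0, mem_range.2 hP⟩ (by rw [card_range]; exact hV)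
  refine ⟨_, filter_subset _ _, hc, c, fun v hv => ?_⟩
  have h1 := (mem_filter.1 hv).2
  have h2 : v % P = c := h1
  show v % P = c % P
  rw [← h2, Nat.mod_mod]

/-- the pattern of the first elements -/
theorem patN_le (q a M : ℕ) (T C : Finset ℕ) (hT : T.Nonempty) (hTC : ∀ t ∈ T, ∀ v ∈ C, t + M < v) (x : ℝ) :
    patN q a M (T ∪ C) x ≤ patN q a M T x := by
  classical
  unfold patN
  refine Set.ncard_le_ncard ?_ ?_
  · rintro n ⟨h1, h2, h3⟩
    refine ⟨h1, h2, fun m hm1 hm2 => ?_⟩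
    have hsup : T.sup id ≤ (T ∪ C).sup id := Finset.sup_mono subset_union_left
    rw [h3 m hm1 (by omega)]
    constructor
    · rintro ⟨v, hv, hmv⟩
      rcases mem_union.1 hv with hv | hv
      · exact ⟨v, hv, hmv⟩
      · exfalso
        obtain ⟨t, ht, hts⟩ := exists_mem_eq_sup T hT id
        have h4 := hTC t ht v hv
        rw [hts] at hm2
        simp only [id] at hm2
        omega
    · rintro ⟨v, hv, hmv⟩
      exact ⟨v, mem_union_left _ hv, hmv⟩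
  · refine (Finset.finite_toSet (Finset.range (⌊x⌋₊ + 1))).subset fun n hn => ?_
    rw [mem_coe, mem_range]
    have := Nat.le_floor hn.1
    omega

/-- only the residue class of `a` modulo `q` matters -/
theorem patN_mod (q a M : ℕ) (T : Finset ℕ) (x : ℝ) : patN q (a % q) M T x = patN q a M T x := by
  unfold patN
  congr 1
  ext n
  have h : n ≡ a % q [MOD q] ↔ n ≡ a [MOD q] :=
    ⟨fun h => h.trans (Nat.mod_modEq a q), fun h => h.trans (Nat.mod_modEq a q).symm⟩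
  constructor
  · rintro ⟨h1, h2, h3⟩
    exact ⟨h1, h.1 h2, h3⟩
  · rintro ⟨h1, h2, h3⟩
    exact ⟨h1, h.2 h2, h3⟩

open Classical in
/-- **the theorem of the type of Maynard and Tao**: in every large set of shifts there are `L` shifts all of whose
subsets with at most `k + 1` elements are patterns of consecutive primes, at least `x / (log x) ^ B` times -/
theorem str (k : ℕ) : ∃ B : ℕ, Str k B := by
  obtain ⟨n₀, B, hkn, hV⟩ := exactV k
  refine ⟨B, fun L R M => ?_⟩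
  set P : ℕ := ∏ p ∈ (range (n₀ + 1)).filter Nat.Prime, p with hP
  have hP0 : 0 < P := prod_pos fun p hp => (mem_filter.1 hp).2.pos
  have hpP : ∀ p : ℕ, p.Prime → p ≤ n₀ → p ∣ P := fun p hp hpn =>
    dvd_prod_of_mem _ (mem_filter.2 ⟨mem_range.2 (by omega), hp⟩)
  obtain ⟨K₁, hK₁⟩ := ramseyAll (Fin R → Prop) n₀ (L + n₀)
  refine ⟨(M + 1) * (P * K₁), fun V hVc Q => ?_⟩
  -- the thresholds
  have h0 : ∀ (V' : Finset ℕ) (q a : ℕ), ∃ x₀ : ℝ, V'.card = n₀ →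
      (∀ p : ℕ, p.Prime → p ≤ n₀ → ∃ c : ℕ, ∀ v ∈ V', v ≡ c [MOD p]) → 1 ≤ q →
      (∀ v ∈ V', (a + v).Coprime q) → ∀ x : ℝ, x₀ ≤ x →
      ∃ T ⊆ V', k + 1 ≤ T.card ∧ x / Real.log x ^ B ≤ (patN q a M T x : ℝ) := by
    intro V' q a
    by_cases hc : V'.card = n₀ ∧ (∀ p : ℕ, p.Prime → p ≤ n₀ → ∃ c : ℕ, ∀ v ∈ V', v ≡ c [MOD p]) ∧
      1 ≤ q ∧ (∀ v ∈ V', (a + v).Coprime q)
    · obtain ⟨x₀, hx₀⟩ := eventually_atTop.1 (hV V' hc.1 hc.2.1 q a hc.2.2.1 hc.2.2.2 M)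
      exact ⟨x₀, fun _ _ _ _ x hx => hx₀ x hx⟩
    · exact ⟨0, fun h1 h2 h3 h4 => absurd ⟨h1, h2, h3, h4⟩ hc⟩
  choose x₀ hx₀ using h0
  refine ⟨∑ V' ∈ V.powerset, ∑ q ∈ range (Q + 1), ∑ a ∈ range (Q + 1), |x₀ V' q a|, fun q a x h => ?_⟩
  -- one residue class, separated
  obtain ⟨V₁, hV₁, hV₁c, hsep⟩ := sparse M (P * K₁) V hVc
  obtain ⟨V₂, hV₂, hV₂c, c₀, hc₀⟩ := one_class P K₁ hP0 V₁ hV₁c
  obtain ⟨V₃, hV₃, hV₃c, hcol⟩ := hK₁ V₂ hV₂c
    (fun T ρ => x ρ / Real.log (x ρ) ^ B ≤ (patN (q ρ) (a ρ) M T (x ρ) : ℝ))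
  have hV₃V : V₃ ⊆ V := hV₃.trans (hV₂.trans hV₁)
  have hbig : ∀ ρ, ∃ u : ℕ, k + 1 ≤ u ∧ u ≤ n₀ ∧ ∀ T ⊆ V₃, T.card = u →
      x ρ / Real.log (x ρ) ^ B ≤ (patN (q ρ) (a ρ) M T (x ρ) : ℝ) := by
    intro ρ
    obtain ⟨V', hV', hV'c⟩ := exists_subset_card_eq (s := V₃) (n := n₀) (by omega)
    obtain ⟨e1, e2, e3, e4⟩ := h ρ
    have hx : x₀ V' (q ρ) (a ρ % q ρ) ≤ x ρ := by
      refine (le_abs_self _).trans (le_trans ?_ e4)
      have hlt : a ρ % q ρ < q ρ := Nat.mod_lt _ (by omega)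
      refine le_trans ?_ (single_le_sum (f := fun V' => ∑ q ∈ range (Q + 1), ∑ a ∈ range (Q + 1),
        |x₀ V' q a|) (fun _ _ => sum_nonneg fun _ _ => sum_nonneg fun _ _ => abs_nonneg _)
        (mem_powerset.2 (hV'.trans hV₃V)))
      refine le_trans ?_ (single_le_sum (f := fun q => ∑ a ∈ range (Q + 1), |x₀ V' q a|)
        (fun _ _ => sum_nonneg fun _ _ => abs_nonneg _) (mem_range.2 (by omega : q ρ < Q + 1)))
      exact single_le_sum (f := fun a => |x₀ V' (q ρ) a|) (fun _ _ => abs_nonneg _)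
        (mem_range.2 (by omega : a ρ % q ρ < Q + 1))
    obtain ⟨T, hT, hTk, hTx⟩ := hx₀ V' (q ρ) (a ρ % q ρ) hV'c
      (fun p hp hpn => ⟨c₀, fun v hv => (hc₀ v (hV₃ (hV' hv))).of_dvd (hpP p hp hpn)⟩) e1
      (fun v hv => by
        have h1 := e3 v (hV₃V (hV' hv))
        have h2 : a ρ % q ρ + v ≡ a ρ + v [MOD q ρ] := (Nat.mod_modEq _ _).add_right v
        unfold Nat.Coprime at h1 ⊢
        rw [Nat.ModEq.gcd_eq h2]
        exact h1) (x ρ) hx
    rw [patN_mod] at hTx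
    have hTn : T.card ≤ n₀ := (card_le_card hT).trans hV'c.le
    obtain ⟨c, hc⟩ := hcol T.card hTn
    refine ⟨T.card, hTk, hTn, fun T' hT' hT'c => ?_⟩
    have h1 := hc T (hT.trans hV') rfl
    have h2 := hc T' hT' hT'c
    have h3 := congrFun (h2.trans h1.symm) ρ
    exact h3.mpr hTx
  obtain ⟨W, hW, hWc, hWlt⟩ := cut V₃ L (by omega)
  refine ⟨W, hW.trans hV₃V, hWc, fun ρ T hT hT1 hTk => ?_⟩
  obtain ⟨u, hu1, hu2, hu⟩ := hbig ρ
  have hCc : (V₃ \ W).card = n₀ := by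
    rw [card_sdiff_of_subset hW, hV₃c, hWc]
    omega
  obtain ⟨C, hC, hCc'⟩ := exists_subset_card_eq (s := V₃ \ W) (n := u - T.card) (by omega)
  have hTC : ∀ t ∈ T, ∀ v ∈ C, t + M < v := by
    intro t ht v hv
    have h1 := mem_sdiff.1 (hC hv)
    exact hsep t (hV₂ (hV₃ (hW (hT ht)))) v (hV₂ (hV₃ h1.1)) (hWlt t (hT ht) v h1.1 h1.2)
  have hdis : Disjoint T C := by
    rw [disjoint_left]
    intro t ht ht'
    have := hTC t ht t ht'
    omega
  have h1 := hu (T ∪ C) (union_subset (hT.trans hW) (hC.trans sdiff_subset)) (by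
    rw [card_union_of_disjoint hdis, hCc']
    omega)
  refine h1.trans ?_
  exact_mod_cast patN_le (q ρ) (a ρ) M T C (card_pos.1 (by omega)) hTC (x ρ)

end Pool.Agent.H50.IC
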